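import Pool.Agent.Helper46.SDL
import Pool.Agent.Helper96.SP.RKLA

/-!
# Self-dual Chow-Künneth decompositions from algebraic Künneth projectors and a nil kernel
-/

set_option autoImplicit false
set_option linter.unusedSectionVars false

open CategoryTheory MonoidalCategory Limits BraidedCategory

universe u v w

namespace Pool.Agent.Helper46.DUAL

open Pool.Agent.TH90.AB Pool.Agent.TH90.Kim Pool.Agent.Helper96.Kim Pool.Agent.Helper96.SP

noncomputable section

variable {𝒜 : Type u} [Category.{v} 𝒜] [MonoidalCategory 𝒜] [SymmetricCategory 𝒜]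
  [Preadditive 𝒜] [MonoidalPreadditive 𝒜] [Linear ℚ 𝒜] [MonoidalLinear ℚ 𝒜]
  {K : Type w} [Field K] [CharZero K] {F : Realisation 𝒜 K}

/-- The realisation on the endomorphisms. -/
def rho (F : Realisation 𝒜 K) (M : 𝒜) : End M →+* Module.End K (F.V M) where
  toFun f := F.map f
  map_one' := LinearMap.ext fun x => F.map_id M x
  map_mul' f g := LinearMap.ext fun x => F.map_comp g f x
  map_zero' := LinearMap.ext fun x => F.map_zero' x
  map_add' f g := LinearMap.ext fun x => F.map_add f g x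

/-- the transpose -/
def IsTr {M L : 𝒜} (μ : M ⊗ M ⟶ L) (f g : M ⟶ M) : Prop := (f ▷ M) ≫ μ = (M ◁ g) ≫ μ

theorem IsTr.add {M L : 𝒜} {μ : M ⊗ M ⟶ L} {f g f' g' : M ⟶ M} (h : IsTr μ f g)
    (h' : IsTr μ f' g') : IsTr μ (f + f') (g + g') := by
  unfold IsTr at *
  rw [MonoidalPreadditive.add_whiskerRight, MonoidalPreadditive.whiskerLeft_add,
    Preadditive.add_comp, Preadditive.add_comp, h, h']

theorem IsTr.comp {M L : 𝒜} {μ : M ⊗ M ⟶ L} {f g f' g' : M ⟶ M} (h : IsTr μ f g)
    (h' : IsTr μ f' g') : IsTr μ (f ≫ f') (g' ≫ g) := by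
  unfold IsTr at *
  rw [comp_whiskerRight, Category.assoc, h', ← Category.assoc, ← whisker_exchange,
    Category.assoc, h, MonoidalCategory.whiskerLeft_comp, Category.assoc]

theorem IsTr.symm {M L : 𝒜} {μ : M ⊗ M ⟶ L} (hμ : (β_ M M).hom ≫ μ = μ) {f g : M ⟶ M}
    (h : IsTr μ f g) : IsTr μ g f := by
  unfold IsTr at *
  calc (g ▷ M) ≫ μ = (g ▷ M) ≫ (β_ M M).hom ≫ μ := by rw [hμ]
    _ = (β_ M M).hom ≫ (M ◁ g) ≫ μ := by
        rw [← Category.assoc, ← Category.assoc, braiding_naturality_left]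
    _ = (β_ M M).hom ≫ (f ▷ M) ≫ μ := by rw [h]
    _ = (M ◁ f) ≫ (β_ M M).hom ≫ μ := by
        rw [← Category.assoc, ← Category.assoc, braiding_naturality_right]
    _ = (M ◁ f) ≫ μ := by rw [hμ]

theorem pair_tr {M L : 𝒜} {μ : M ⊗ M ⟶ L} {f g : M ⟶ M} (h : IsTr μ f g) (x y : F.V M) :
    F.map μ (F.ext x (F.map g y)) = F.map μ (F.ext (F.map f x) y) := by
  have h1 : F.ext x (F.map g y) = F.map (M ◁ g) (F.ext x y) := by
    rw [← id_tensorHom, F.ext_map, F.map_id]
  have h2 : F.ext (F.map f x) y = F.map (f ▷ M) (F.ext x y) := by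
    rw [← tensorHom_id, F.ext_map, F.map_id]
  rw [h1, h2, ← F.map_comp, ← F.map_comp]
  unfold IsTr at h
  rw [h]

theorem selfdual (G : Grading F) {M L : 𝒜} (c : ℤ) (μ : M ⊗ M ⟶ L)
    (hμ : (β_ M M).hom ≫ μ = μ) (htr : ∀ f : M ⟶ M, ∃! g : M ⟶ M, (f ▷ M) ≫ μ = (M ◁ g) ≫ μ)
    (hdeg : ∀ k, k ≠ c → ∀ x ∈ G.gr L k, x = 0)
    (hnd : ∀ y : F.V M, (∀ x, F.map μ (F.ext x y) = 0) → y = 0)
    (hnil : ∀ f : End M, F.map (show M ⟶ M from f) = 0 → IsNilpotent f)
    (hK : ∀ k : ℤ, ∃ e : M ⟶ M, (∀ x ∈ G.gr M k, F.map e x = x) ∧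
      ∀ l, l ≠ k → ∀ x ∈ G.gr M l, F.map e x = 0) :
    ∃ (s : Finset ℤ) (p : ℤ → (M ⟶ M)), (∀ k, k ∉ s → p k = 0) ∧ ∑ k ∈ s, p k = 𝟙 M ∧
      (∀ k, p k ≫ p k = p k) ∧ (∀ k l, k ≠ l → p k ≫ p l = 0) ∧
      (∀ k, (∀ x ∈ G.gr M k, F.map (p k) x = x) ∧
        ∀ l, l ≠ k → ∀ x ∈ G.gr M l, F.map (p k) x = 0) ∧
      (∀ k, (∀ x ∈ G.gr M k, x = 0) → p k = 0) ∧
      ∀ k, (p k ▷ M) ≫ μ = (M ◁ p (c - k)) ≫ μ := by
  classical
  obtain ⟨d, b, g, hb⟩ := exists_hb G M
  choose e he1 he2 using hK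
  have heb : ∀ k i, F.map (e k) (b i) = if k = g i then b i else 0 := by
    intro k i
    split_ifs with h
    · subst h; exact he1 _ _ (hb i)
    · exact he2 k (g i) (Ne.symm h) _ (hb i)
  choose t ht htu using htr
  have htu' : ∀ f g, IsTr μ f g → g = t f := fun f g h => htu f g h
  have tinv : ∀ f, t (t f) = f := fun f => (htu' _ _ (IsTr.symm hμ (ht f))).symm
  have tadd : ∀ f g, t (f + g) = t f + t g := fun f g =>
    (htu' _ _ (IsTr.add (ht f) (ht g))).symm
  have tcomp : ∀ f g, t (f ≫ g) = t g ≫ t f := fun f g =>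
    (htu' _ _ (IsTr.comp (ht f) (ht g))).symm
  let T : End M →+ End M :=
    { toFun := fun f => t f
      map_zero' := by
        have h := tadd 0 0
        rw [add_zero] at h
        exact left_eq_add.1 h
      map_add' := fun f g => tadd f g }
  have pd : ∀ j i, g j + g i ≠ c → F.map μ (F.ext (b j) (b i)) = 0 := fun j i h =>
    hdeg _ h _ (G.map_mem μ _ _ (G.ext_mem _ _ _ _ (hb j) (hb i)))
  have hteb : ∀ k i, F.map (t (e k)) (b i) = if c - k = g i then b i else 0 := by
    intro k i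
    rw [← sub_eq_zero]
    apply hnd
    intro x
    have hlin : (F.map μ) ∘ₗ (F.ext.flip (F.map (t (e k)) (b i) -
        if c - k = g i then b i else 0)) = 0 := by
      apply b.ext
      intro j
      show F.map μ (F.ext (b j) (F.map (t (e k)) (b i) - if c - k = g i then b i else 0)) = 0
      rw [map_sub, map_sub, pair_tr (ht (e k)), heb]
      by_cases h1 : k = g j
      · rw [if_pos h1]
        by_cases h2 : c - k = g i
        · rw [if_pos h2, sub_self]
        · rw [if_neg h2, map_zero, map_zero, sub_zero]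
          exact pd j i (by omega)
      · rw [if_neg h1, map_zero, LinearMap.zero_apply, map_zero]
        by_cases h2 : c - k = g i
        · rw [if_pos h2, pd j i (by omega), sub_zero]
        · rw [if_neg h2, map_zero, map_zero, sub_zero]
    exact LinearMap.congr_fun hlin x
  let s : Finset ℤ := Finset.univ.image g ∪ Finset.univ.image fun i => c - g i
  have hgs : ∀ i, g i ∈ s := fun i =>
    Finset.mem_union_left _ (Finset.mem_image_of_mem g (Finset.mem_univ i))
  have hcs : ∀ k ∈ s, c - k ∈ s := by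
    intro k hk
    rcases Finset.mem_union.1 hk with h | h
    · obtain ⟨i, -, rfl⟩ := Finset.mem_image.1 h
      exact Finset.mem_union_right _ (Finset.mem_image_of_mem _ (Finset.mem_univ i))
    · obtain ⟨i, -, rfl⟩ := Finset.mem_image.1 h
      rw [sub_sub_cancel]; exact hgs i
  let σ : s → s := fun k => ⟨c - k, hcs _ k.2⟩
  let l : s → ℚ := fun k => 2 * (k : ℤ) - c
  let algE : Algebra ℚ (Module.End K (F.V M)) := RingHom.toAlgebra'
    ((algebraMap K (Module.End K (F.V M))).comp (algebraMap ℚ K))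
    (fun q x => Algebra.commutes (R := K) (A := Module.End K (F.V M)) (algebraMap ℚ K q) x)
  have hco : CompleteOrthogonalIdempotents fun k : s => rho F M (e k) := by
    refine ⟨⟨fun k => ?_, fun k k' hkk => ?_⟩, ?_⟩
    · apply b.ext
      intro i
      show F.map (e k) (F.map (e k) (b i)) = F.map (e k) (b i)
      rw [heb]
      split_ifs with h
      · rw [heb, if_pos h]
      · rw [map_zero]
    · apply b.ext
      intro i
      show F.map (e k) (F.map (e k') (b i)) = 0
      rw [heb]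
      split_ifs with h
      · rw [heb, if_neg]
        intro h'
        exact hkk (Subtype.ext (h'.trans h.symm))
      · rw [map_zero]
    · apply b.ext
      intro i
      rw [LinearMap.sum_apply, Finset.sum_eq_single (⟨g i, hgs i⟩ : s)]
      · show F.map (e (g i)) (b i) = b i
        rw [heb, if_pos rfl]
      · intro k _ hk
        show F.map (e k) (b i) = 0
        rw [heb, if_neg]
        intro h; exact hk (Subtype.ext h)
      · intro h; exact absurd (Finset.mem_univ _) h
  have hker : ∀ x : End M, rho F M x = 0 → rho F M (T x) = 0 := by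
    intro x hx
    apply LinearMap.ext
    intro y
    show F.map (t x) y = 0
    apply hnd
    intro z
    rw [pair_tr (ht x)]
    have : F.map x z = 0 := LinearMap.congr_fun hx z
    rw [this, map_zero, LinearMap.zero_apply, map_zero]
  obtain ⟨p, hp, hρp, htp⟩ := SDL.sdl (rho F M) (fun x hx => hnil x hx) T
    (fun x y => tcomp y x) (fun x => tinv x) hker σ
    (fun k => Subtype.ext (sub_sub_cancel c (k : ℤ))) l
    (fun k k' h => by
      have h1 : (2 * ((k : ℤ) : ℚ) - c) = 2 * ((k' : ℤ) : ℚ) - c := h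
      have h2 : ((k : ℤ) : ℚ) = (k' : ℤ) := by linarith
      exact Subtype.ext (by exact_mod_cast h2))
    (fun k => by
      show 2 * (((c - k : ℤ)) : ℚ) - c = -(2 * ((k : ℤ) : ℚ) - c)
      push_cast; ring) (fun k => e k) hco
    (fun k => by
      apply b.ext
      intro i
      show F.map (t (e k)) (b i) = F.map (e (c - k)) (b i)
      rw [hteb, heb])
  let P : ℤ → (M ⟶ M) := fun k => if h : k ∈ s then p ⟨k, h⟩ else 0
  have hP : ∀ k (h : k ∈ s), P k = p ⟨k, h⟩ := fun k h => dif_pos h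
  have hP0 : ∀ k, k ∉ s → P k = 0 := fun k h => dif_neg h
  have hPb : ∀ k i, F.map (P k) (b i) = if k = g i then b i else 0 := by
    intro k i
    by_cases h : k ∈ s
    · rw [hP k h, ← heb]
      exact LinearMap.congr_fun (hρp ⟨k, h⟩) (b i)
    · rw [hP0 k h, if_neg]
      · exact F.map_zero' _
      · rintro rfl; exact h (hgs i)
  have hPi : ∀ k, P k ≫ P k = P k := by
    intro k
    by_cases h : k ∈ s
    · rw [hP k h]; exact hp.idem ⟨k, h⟩
    · rw [hP0 k h, comp_zero]
  refine ⟨s, P, hP0, ?_, hPi, ?_, ?_, ?_, ?_⟩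
  · have h1 : ∑ k ∈ s, P k = ∑ k : s, p k := by
      rw [← Finset.sum_coe_sort s P]
      exact Finset.sum_congr rfl fun k _ => hP k k.2
    rw [h1]; exact hp.complete
  · intro k k' hkk
    by_cases h : k ∈ s
    · by_cases h' : k' ∈ s
      · rw [hP k h, hP k' h']
        exact hp.ortho (i := ⟨k', h'⟩) (j := ⟨k, h⟩)
          (fun hh => hkk (congrArg Subtype.val hh).symm)
      · rw [hP0 k' h', comp_zero]
    · rw [hP0 k h, zero_comp]
  · intro k
    have hk1 : (F.map (P k) : F.V M →ₗ[K] F.V M) = F.map (e k) :=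
      b.ext fun i => by rw [hPb, heb]
    rw [hk1]
    exact ⟨he1 k, he2 k⟩
  · intro k hk
    have h0 : (F.map (P k) : F.V M →ₗ[K] F.V M) = 0 := by
      apply b.ext
      intro i
      rw [hPb, LinearMap.zero_apply]
      split_ifs with h
      · exact hk _ (by rw [h]; exact hb i)
      · rfl
    have hid : IsIdempotentElem (show End M from P k) := hPi k
    obtain ⟨m, hm⟩ := hnil (show End M from P k) h0
    have h1 := hid.pow_succ_eq m
    rw [pow_succ, hm, zero_mul] at h1
    exact h1.symm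
  · intro k
    show IsTr μ (P k) (P (c - k))
    by_cases h : k ∈ s
    · rw [hP k h, hP (c - k) (hcs k h)]
      have h1 : t (p ⟨k, h⟩) = p ⟨c - k, hcs k h⟩ := htp ⟨k, h⟩
      rw [← h1]
      exact ht _
    · have h' : c - k ∉ s := fun hh => h (by have := hcs _ hh; rwa [sub_sub_cancel] at this)
      rw [hP0 k h, hP0 _ h']
      unfold IsTr
      rw [MonoidalPreadditive.zero_whiskerRight, MonoidalPreadditive.whiskerLeft_zero]

end

end Pool.Agent.Helper46.DUAL
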