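import Mathlib.RingTheory.Idempotents
import Mathlib.RingTheory.Adjoin.Basic
import Mathlib.LinearAlgebra.Lagrange
import Mathlib.Algebra.Algebra.Hom.Rat

/-!
# Self-dual lifts of orthogonal idempotents

`R` is a `ℚ`-algebra with an anti-involution `t`, `ρ` a ring homomorphism with nil kernel which `t`
respects. If the images of `e i` form a complete system of orthogonal idempotents and `t` exchanges
the images of `e i` and `e (σ i)`, then the system lifts to a complete system of orthogonal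
idempotents `p i` of `R` with `t (p i) = p (σ i)`.
-/

set_option autoImplicit false

open Polynomial

namespace Pool.Agent.Helper46.SDL

theorem aeval_sum {E : Type*} [Ring E] [Algebra ℚ E] {ι : Type*} [Fintype ι] [DecidableEq ι]
    {ε : ι → E} (hε : CompleteOrthogonalIdempotents ε) (l : ι → ℚ) (P : ℚ[X]) :
    aeval (∑ i, l i • ε i) P = ∑ i, (P.eval (l i)) • ε i := by
  induction P using Polynomial.induction_on' with
  | add p q hp hq =>
    rw [map_add, hp, hq, ← Finset.sum_add_distrib]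
    exact Finset.sum_congr rfl fun i _ => by rw [eval_add, add_smul]
  | monomial n a =>
    rw [aeval_monomial]
    have hpow : (∑ i, l i • ε i) ^ n = ∑ i, (l i ^ n) • ε i := by
      induction n with
      | zero => simp [hε.complete]
      | succ n ih =>
        rw [pow_succ, ih, Finset.sum_mul]
        refine Finset.sum_congr rfl fun i _ => ?_
        rw [Finset.mul_sum, Finset.sum_eq_single i]
        · rw [smul_mul_smul_comm, (hε.idem i).eq, pow_succ]
        · intro j _ hj
          rw [smul_mul_smul_comm, hε.ortho (Ne.symm hj), smul_zero]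
        · intro h; exact absurd (Finset.mem_univ i) h
    rw [hpow, Finset.mul_sum]
    refine Finset.sum_congr rfl fun i _ => ?_
    rw [eval_monomial, ← Algebra.smul_def, smul_smul]

theorem sdl {R E : Type*} [Ring R] [Algebra ℚ R] [Ring E] [Algebra ℚ E] (ρ : R →+* E)
    (hnil : ∀ x, ρ x = 0 → IsNilpotent x) (t : R →+ R) (hmul : ∀ x y, t (x * y) = t y * t x)
    (hinv : ∀ x, t (t x) = x) (ht : ∀ x, ρ x = 0 → ρ (t x) = 0) {ι : Type*} [Fintype ι]
    [DecidableEq ι] (σ : ι → ι) (hσ : ∀ i, σ (σ i) = i) (l : ι → ℚ) (hl : Function.Injective l)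
    (hlσ : ∀ i, l (σ i) = - l i) (e : ι → R)
    (he : CompleteOrthogonalIdempotents fun i => ρ (e i)) (hte : ∀ i, ρ (t (e i)) = ρ (e (σ i))) :
    ∃ p : ι → R, CompleteOrthogonalIdempotents p ∧ (∀ i, ρ (p i) = ρ (e i)) ∧
      ∀ i, t (p i) = p (σ i) := by
  classical
  let ρ' : R →ₐ[ℚ] E := ρ.toRatAlgHom
  have hρ' : ∀ x, ρ' x = ρ x := fun _ => rfl
  have tsm : ∀ (q : ℚ) (x : R), t (q • x) = q • t x := fun q x => map_rat_smul t q x
  have rsm : ∀ (q : ℚ) (x : R), ρ (q • x) = q • ρ x := fun q x => map_rat_smul ρ q x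
  have t1 : t 1 = 1 := by
    have h1 := hmul (t 1) 1
    rw [mul_one, hinv, mul_one] at h1
    exact h1.symm
  let g₀ : R := ∑ i, l i • e i
  let g : R := (1 / 2 : ℚ) • (g₀ - t g₀)
  have tg : t g = -g := by
    show t ((1 / 2 : ℚ) • (g₀ - t g₀)) = -((1 / 2 : ℚ) • (g₀ - t g₀))
    rw [tsm, map_sub, hinv, ← smul_neg, neg_sub]
  have rg₀ : ρ g₀ = ∑ i, l i • ρ (e i) := by
    show ρ (∑ i, l i • e i) = _
    rw [map_sum]
    exact Finset.sum_congr rfl fun i _ => rsm _ _
  let S' : ι ≃ ι := ⟨σ, σ, hσ, hσ⟩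
  have rtg₀ : ρ (t g₀) = -∑ i, l i • ρ (e i) := by
    show ρ (t (∑ i, l i • e i)) = _
    rw [map_sum, map_sum, ← Finset.sum_neg_distrib, ← Equiv.sum_comp S']
    refine Finset.sum_congr rfl fun i _ => ?_
    show ρ (t (l (σ i) • e (σ i))) = -(l i • ρ (e i))
    rw [tsm, rsm, hte, hσ, hlσ, neg_smul]
  have rg : ρ g = ∑ i, l i • ρ (e i) := by
    show ρ ((1 / 2 : ℚ) • (g₀ - t g₀)) = _
    rw [rsm, map_sub, rg₀, rtg₀, sub_neg_eq_add, ← two_smul ℚ, smul_smul]
    norm_num
  let S : Subalgebra ℚ R := Algebra.adjoin ℚ {g}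
  let cS : CommRing S := Algebra.adjoinCommRingOfComm ℚ (by
    intro a ha b hb
    rw [Set.mem_singleton_iff] at ha hb
    rw [ha, hb])
  let f : S →+* E := ρ.comp (S.val : S →+* R)
  have hf : ∀ x : S, f x = ρ x := fun _ => rfl
  have hker : ∀ x ∈ RingHom.ker f, IsNilpotent x := by
    intro x hx
    obtain ⟨n, hn⟩ := hnil x (by rw [RingHom.mem_ker, hf] at hx; exact hx)
    exact ⟨n, Subtype.ext (by rw [SubmonoidClass.coe_pow, hn]; rfl)⟩
  have hgS : g ∈ S := Algebra.subset_adjoin rfl
  have hrange : ∀ i, ρ (e i) ∈ f.range := by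
    intro i
    let P : ℚ[X] := Lagrange.basis Finset.univ l i
    have hP : aeval g P ∈ S := by
      have h2 : aeval g P = ((aeval (⟨g, hgS⟩ : S) P : S) : R) :=
        aeval_algHom_apply S.val (⟨g, hgS⟩ : S) P
      rw [h2]; exact (aeval (⟨g, hgS⟩ : S) P).2
    refine ⟨⟨aeval g P, hP⟩, ?_⟩
    rw [hf]
    show ρ (aeval g P) = ρ (e i)
    rw [← hρ', ← aeval_algHom_apply, hρ', rg, aeval_sum he l P, Finset.sum_eq_single i]
    · rw [Lagrange.eval_basis_self (fun a _ b _ h => hl h) (Finset.mem_univ i), one_smul]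
    · intro j _ hj
      rw [Lagrange.eval_basis_of_ne (Ne.symm hj) (Finset.mem_univ j), zero_smul]
    · intro h; exact absurd (Finset.mem_univ i) h
  obtain ⟨p, hp, hfp⟩ := CompleteOrthogonalIdempotents.lift_of_isNilpotent_ker f hker he hrange
  have hρp : ∀ i, ρ (p i : R) = ρ (e i) := fun i => congrFun hfp i
  have tS : ∀ x ∈ S, t x ∈ S := by
    intro x hx
    induction hx using Algebra.adjoin_induction with
    | mem x hx =>
      rw [Set.mem_singleton_iff] at hx
      rw [hx, tg]; exact S.neg_mem hgS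
    | algebraMap q =>
      rw [Algebra.algebraMap_eq_smul_one, tsm, t1]
      exact S.smul_mem S.one_mem q
    | add x y _ _ hx hy => rw [map_add]; exact S.add_mem hx hy
    | mul x y _ _ hx hy => rw [hmul]; exact S.mul_mem hy hx
  have hpc := hp.map (S.val : S →+* R)
  refine ⟨fun i => (p i : R), ?_, hρp, ?_⟩
  · exact hpc
  · intro i
    have hid : IsIdempotentElem (⟨t (p i), tS _ (p i).2⟩ : S) := by
      apply Subtype.ext
      show t (p i) * t (p i) = t (p i)
      rw [← hmul]
      congr 1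
      exact congrArg Subtype.val (hp.idem i).eq
    have him : f ⟨t (p i), tS _ (p i).2⟩ = ρ (e (σ i)) := by
      rw [hf]
      show ρ (t (p i)) = ρ (e (σ i))
      rw [← hte]
      have h1 : ρ ((p i : R) - e i) = 0 := by rw [map_sub, hρp, sub_self]
      have h2 := ht _ h1
      rw [map_sub, map_sub, sub_eq_zero] at h2
      exact h2
    obtain ⟨q, _, hq⟩ := existsUnique_isIdempotentElem_eq_of_ker_isNilpotent f hker
      (ρ (e (σ i))) (hrange (σ i)) (he.idem (σ i))
    have a1 := hq _ ⟨hid, him⟩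
    have a2 := hq (p (σ i)) ⟨hp.idem _, congrFun hfp _⟩
    exact congrArg Subtype.val (a1.trans a2.symm)

end Pool.Agent.Helper46.SDL
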